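import Pool.Agent.N841.LZ.Stm

/-!
# Assembly for MP_414bc7_lc (barely independent families over `ω₁`)
-/

set_option autoImplicit false

open Cardinal Set Filter

namespace Pool.Agent.N841.LZ

/-- there is an uncountable set `X` of subsets of `ω` such that every infinite subset of `ω` is
split by all but countably many members of `X` -/
def SplittingLuzinSet : Prop :=
  ∃ X : Set (Set ℕ), ¬ X.Countable ∧
    ∀ R : Set ℕ, R.Infinite → {S | S ∈ X ∧ ¬ Splits S R}.Countable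

lemma mk_Om : #Om = ℵ₁ := by simp [Om]

lemma not_countable_univ : ¬ (Set.univ : Set Om).Countable := by
  intro h
  have h1 : #(Set.univ : Set Om) ≤ ℵ₀ := Cardinal.le_aleph0_iff_set_countable.2 h
  rw [Cardinal.mk_univ, mk_Om] at h1
  exact absurd h1 (not_le.2 Cardinal.aleph0_lt_aleph_one)

lemma exists_inj {Y : Type} {X : Set Y} (hX : ¬ X.Countable) :
    ∃ s : Om → Y, Function.Injective s ∧ ∀ a, s a ∈ X := by
  have h1 : #Om ≤ #X := by
    rw [mk_Om]
    have h2 : ℵ₀ < #X := by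
      rw [← not_le]
      intro h
      exact hX (Cardinal.le_aleph0_iff_set_countable.1 h)
    have h3 : Order.succ ℵ₀ ≤ #X := Order.succ_le_of_lt h2
    rwa [Cardinal.succ_aleph0] at h3
  obtain ⟨f⟩ := h1
  exact ⟨fun a => (f a).1, fun a b h => f.injective (Subtype.ext h), fun a => (f a).2⟩

lemma tail_iff : (∃ S : Om → Set ℕ, TailSplitting S) ↔ SplittingLuzinSet := by
  constructor
  · rintro ⟨S, hS⟩
    refine ⟨Set.range S, ?_, ?_⟩
    · intro hc
      have hfib : ∀ T : Set ℕ, {a | S a = T}.Countable := by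
        intro T
        rcases Set.finite_or_infinite T with hT | hT
        · have hT' : (Tᶜ).Infinite := hT.infinite_compl
          refine (hS _ hT').mono ?_
          rintro a rfl
          simp [Splits]
        · refine (hS _ hT).mono ?_
          rintro a rfl
          simp [Splits]
      apply not_countable_univ
      have : (Set.univ : Set Om) = ⋃ T ∈ Set.range S, {a | S a = T} := by
        ext a
        simp
      rw [this]
      exact hc.biUnion fun T _ => hfib T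
    · intro R hR
      refine ((hS R hR).image S).mono ?_
      rintro _ ⟨⟨a, rfl⟩, h⟩
      exact ⟨a, h, rfl⟩
  · rintro ⟨X, hX, hR⟩
    obtain ⟨s, hs, hsX⟩ := exists_inj hX
    refine ⟨s, fun R hRi => ?_⟩
    refine ((hR R hRi).preimage hs).mono ?_
    intro a ha
    exact ⟨hsX a, ha⟩

theorem big_of_tail (hCOH : S_COH) (hMIX : S_MIX) (hZORN : S_ZORN) (hFAM : S_FAM)
    (h : ∃ S : Om → Set ℕ, TailSplitting S) : ∃ 𝓘 : Set (Set Om), BIF 𝓘 ∧ #𝓘 = ℵ₁ := by
  obtain ⟨e, he1, he2⟩ := hCOH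
  obtain ⟨S, hS⟩ := h
  have hA := hMIX e S he1 he2 hS
  obtain ⟨M, hM, hF⟩ := hZORN (fun ξ => {α | ξ < α ∧ e α ξ ∈ S α}) hA
  exact hFAM _ M hA hM hF

theorem final (hCOH : S_COH) (hMIX : S_MIX) (hZORN : S_ZORN) (hFAM : S_FAM) (hAC : S_AC)
    (hDOM : S_DOM) (hSIER : S_SIER) :
    ((∃ 𝓘 : Set (Set Om), BIF 𝓘) → ∃ 𝓘 : Set (Set Om), BIF 𝓘 ∧ #𝓘 = ℵ₁) ∧
    ((∃ 𝓘 : Set (Set Om), BIF 𝓘) ↔ SplittingLuzinSet) ∧
    (dominatingNumber = ℵ₁ → ∃ 𝓘 : Set (Set Om), BIF 𝓘 ∧ #𝓘 = ℵ₁) ∧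
    (SierpinskiSet → ∃ 𝓘 : Set (Set Om), BIF 𝓘 ∧ #𝓘 = ℵ₁) := by
  have key := big_of_tail hCOH hMIX hZORN hFAM
  refine ⟨fun h => key (hAC h), ?_, fun h => key (hDOM h), fun h => key (hSIER h)⟩
  rw [← tail_iff]
  exact ⟨hAC, fun h => (key h).imp fun _ h => h.1⟩

end Pool.Agent.N841.LZ
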