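import Mathlib

/-!
# Statements for MP_414bc7_lc (barely independent families over `ω₁`)
-/

set_option autoImplicit false

open Cardinal Set Filter MeasureTheory

namespace Pool.Agent.N841.LZ

/-- the set `ω₁`, with its well-order -/
abbrev Om : Type := (ℵ₁ : Cardinal.{0}).ord.ToType

/-- the Boolean combination of the members of `𝒜` given by `h` -/
def BoolComb (𝒜 : Set (Set Om)) (h : Set Om → Bool) : Set Om :=
  {x | ∀ A ∈ 𝒜, (x ∈ A ↔ h A = false)}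

/-- barely independent families over `ω₁` -/
def BIF (𝓘 : Set (Set Om)) : Prop :=
  𝓘.Infinite ∧ (∀ A ∈ 𝓘, ¬ A.Countable) ∧
    (∀ 𝒜 ⊆ 𝓘, 𝒜.Finite → ∀ h : Set Om → Bool, ¬ (BoolComb 𝒜 h).Countable) ∧
    ∀ 𝒜 ⊆ 𝓘, 𝒜.Countable → 𝒜.Infinite → ∀ h : Set Om → Bool, (BoolComb 𝒜 h).Countable

/-- `S` splits `R` -/
def Splits (S R : Set ℕ) : Prop := (R ∩ S).Infinite ∧ (R \ S).Infinite

/-- every infinite subset of `ω` is split by all but countably many of the sets `S a`, `a < ω₁` -/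
def TailSplitting (S : Om → Set ℕ) : Prop :=
  ∀ R : Set ℕ, R.Infinite → {a | ¬ Splits (S a) R}.Countable

/-- the dominating number `𝔡` -/
noncomputable def dominatingNumber : Cardinal.{0} :=
  sInf {κ | ∃ D : Set (ℕ → ℕ), #D = κ ∧ ∀ g : ℕ → ℕ, ∃ f ∈ D, ∀ᶠ n in atTop, g n ≤ f n}

/-- the coin-tossing measure on `2 ^ ω` -/
noncomputable def coin : Measure (ℕ → Bool) :=
  Measure.infinitePi fun _ => (PMF.uniformOfFintype Bool).toMeasure

/-- there is a Sierpiński set: an uncountable set of reals whose null subsets are countable -/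
def SierpinskiSet : Prop :=
  ∃ X : Set (ℕ → Bool), ¬ X.Countable ∧ ∀ N : Set (ℕ → Bool), coin N = 0 → (X ∩ N).Countable

/-- coherent finite-to-one functions -/
def S_COH : Prop :=
  ∃ e : Om → Om → ℕ, (∀ a k, {x | x < a ∧ e a x ≤ k}.Finite) ∧
    ∀ a b, a < b → {x | x < a ∧ e a x ≠ e b x}.Finite

/-- the sets `{α | ξ < α ∧ e α ξ ∈ S α}` -/
def S_MIX : Prop :=
  ∀ (e : Om → Om → ℕ) (S : Om → Set ℕ), (∀ a k, {x | x < a ∧ e a x ≤ k}.Finite) →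
    (∀ a b, a < b → {x | x < a ∧ e a x ≠ e b x}.Finite) → TailSplitting S →
    ∀ Ξ : Set Om, Ξ.Infinite → ∀ h : Om → Prop,
      {α | ∀ ξ ∈ Ξ, ((ξ < α ∧ e α ξ ∈ S α) ↔ h ξ)}.Countable

/-- a large subfamily with uncountable finite cells -/
def S_ZORN : Prop :=
  ∀ A : Om → Set Om,
    (∀ Ξ : Set Om, Ξ.Infinite → ∀ h : Om → Prop, {α | ∀ ξ ∈ Ξ, (α ∈ A ξ ↔ h ξ)}.Countable) →
    ∃ M : Set Om, ¬ M.Countable ∧ ∀ F : Finset Om, (∀ ξ ∈ F, ξ ∈ M) → ∀ h : Om → Prop,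
      ¬ {α | ∀ ξ ∈ F, (α ∈ A ξ ↔ h ξ)}.Countable

/-- the family `A '' M` -/
def S_FAM : Prop :=
  ∀ (A : Om → Set Om) (M : Set Om),
    (∀ Ξ : Set Om, Ξ.Infinite → ∀ h : Om → Prop, {α | ∀ ξ ∈ Ξ, (α ∈ A ξ ↔ h ξ)}.Countable) →
    ¬ M.Countable → (∀ F : Finset Om, (∀ ξ ∈ F, ξ ∈ M) → ∀ h : Om → Prop,
      ¬ {α | ∀ ξ ∈ F, (α ∈ A ξ ↔ h ξ)}.Countable) →
    ∃ 𝓘 : Set (Set Om), BIF 𝓘 ∧ #𝓘 = ℵ₁

/-- from a barely independent family to a tail-splitting sequence -/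
def S_AC : Prop := (∃ 𝓘 : Set (Set Om), BIF 𝓘) → ∃ S : Om → Set ℕ, TailSplitting S

/-- `𝔡 = ω₁` gives a tail-splitting sequence -/
def S_DOM : Prop := dominatingNumber = ℵ₁ → ∃ S : Om → Set ℕ, TailSplitting S

/-- a Sierpiński set gives a tail-splitting sequence -/
def S_SIER : Prop := SierpinskiSet → ∃ S : Om → Set ℕ, TailSplitting S

end Pool.Agent.N841.LZ
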